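import Pool.Agent.H21.IS.Core

/-!
# Theorem 1 (section 4 of `db5e86_proof`): the limit `t → 0+`, abstract form
-/

set_option autoImplicit false
set_option linter.unusedSectionVars false

open scoped InnerProductSpace Topology ContDiff
open Set Filter

namespace Pool.Agent.H21.IS

variable {E : Type*} [NormedAddCommGroup E] [InnerProductSpace ℝ E] [FiniteDimensional ℝ E]

/-- The data of the limit: `B t = t⁻¹ (DΦ_t (0, ·)).1`, `C t = (DΦ_t (0, ·)).2`,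
`B' t = - t⁻¹ (DΦ_{-t} (0, ·)).1`, `k₁, k₂` the components of `DΦ_t`. -/
structure Dat (E : Type*) [NormedAddCommGroup E] [InnerProductSpace ℝ E] where
  V : Submodule ℝ E
  V' : ℝ → Submodule ℝ E
  Y₀ : Submodule ℝ (E × E)
  B : ℝ → E →L[ℝ] E
  C : ℝ → E →L[ℝ] E
  B' : ℝ → E →L[ℝ] E
  k₁ : ℝ → (E × E) →L[ℝ] E
  k₂ : ℝ → (E × E) →L[ℝ] E
  D : E →L[ℝ] E
  hB : HasDerivAt B ((1 / 2 : ℝ) • D) 0
  hB0 : B 0 = 1
  hC : HasDerivAt C D 0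
  hC0 : C 0 = 1
  hB' : ContinuousAt B' 0
  hB'0 : B' 0 = 1
  hk₁ : HasDerivAt k₁ (ContinuousLinearMap.snd ℝ E E) 0
  hk₁0 : k₁ 0 = ContinuousLinearMap.fst ℝ E E
  hk₂ : DifferentiableAt ℝ k₂ 0
  hk₂0 : k₂ 0 = ContinuousLinearMap.snd ℝ E E
  dim : ∀ t, Module.finrank ℝ (V' t) = Module.finrank ℝ V
  BV : ∀ t > 0, ∀ x ∈ V, B t x ∈ V' t
  BV' : ∀ t > 0, ∀ x ∈ V' t, B' t x ∈ V
  CV : ∀ t > 0, ∀ k ∈ Y₀, ∀ x ∈ V, B t x = k₁ t k → C t x - t • k₂ t k ∈ V' t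
  YV : ∀ k ∈ Y₀, k.1 ∈ V
  YV' : ∀ t > 0, ∀ k ∈ Y₀, k₁ t k ∈ V' t
  Yz : ∀ k ∈ Y₀, k.1 = 0 → k = 0
  hD : ∀ x ∈ V, ∀ u ∈ V, ⟪D x, u⟫_ℝ = 0

namespace Dat

variable (d : Dat E)

def TI (t : ℝ) (e e' : E) : Prop :=
  e ∈ d.V ∧ (∃ k ∈ d.Y₀, d.B t e = d.k₁ t k) ∧
    (∃ x ∈ d.V, ∃ k ∈ d.Y₀, d.B t x = d.k₁ t k ∧ e' = d.C t x - t • d.k₂ t k) ∧
    ∀ k ∈ d.Y₀, ∀ x ∈ d.V, d.B t x = d.k₁ t k → ⟪e, x⟫_ℝ = ⟪e', d.C t x - t • d.k₂ t k⟫_ℝ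

def TII (t : ℝ) (e e' : E) : Prop :=
  e ∈ d.V ∧ e' ∈ d.V' t ∧ (∀ k ∈ d.Y₀, ⟪e, k.1⟫_ℝ = 0) ∧ (∀ k ∈ d.Y₀, ⟪e', d.k₁ t k⟫_ℝ = 0) ∧
    ∃ k ∈ d.Y₀, ∃ x ∈ d.V, d.B t x = d.k₁ t k ∧
      (∃ y ∈ d.Y₀, d.C t x - t • d.k₂ t k = t • d.B t e + d.k₁ t y) ∧
      ∃ y ∈ d.Y₀, x = t • d.B' t e' + y.1

def St (t : ℝ) : Prop :=
  ∃ α : ℝ, ∀ e e', (d.TI t e e' ∨ d.TII t e e') → ∀ k ∈ d.Y₀, ∀ x ∈ d.V, d.B t x = d.k₁ t k →
    ∀ z ∈ d.V, d.B t z = d.C t x - t • d.k₂ t k →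
      ⟪z, e⟫_ℝ - ⟪d.C t z, e'⟫_ℝ = t * α * ⟪d.C t x - t • d.k₂ t k, e'⟫_ℝ

/-- `X t k = x`, `W t k = y`, `Z t k = z`. -/
noncomputable def X (t : ℝ) : (E × E) →L[ℝ] E := Ring.inverse (d.B t) ∘L d.k₁ t

noncomputable def W (t : ℝ) : (E × E) →L[ℝ] E := d.C t ∘L d.X t - t • d.k₂ t

noncomputable def Z (t : ℝ) : (E × E) →L[ℝ] E := Ring.inverse (d.B t) ∘L d.W t

theorem deriv_inv : HasDerivAt (fun t => Ring.inverse (d.B t)) (-((1 / 2 : ℝ) • d.D)) 0 := by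
  have h1 := (hasFDerivAt_ringInverse (𝕜 := ℝ) (1 : (E →L[ℝ] E)ˣ))
  have h2 : HasFDerivAt Ring.inverse
      (-ContinuousLinearMap.mulLeftRight ℝ (E →L[ℝ] E) ↑(1 : (E →L[ℝ] E)ˣ)⁻¹ ↑(1 : (E →L[ℝ] E)ˣ)⁻¹)
      (d.B 0) := by
    rw [d.hB0]; exact h1
  have h3 := h2.comp_hasDerivAt (0 : ℝ) d.hB
  have h4 : (-ContinuousLinearMap.mulLeftRight ℝ (E →L[ℝ] E) ↑(1 : (E →L[ℝ] E)ˣ)⁻¹
      ↑(1 : (E →L[ℝ] E)ˣ)⁻¹) ((1 / 2 : ℝ) • d.D) = -((1 / 2 : ℝ) • d.D) := by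
    simp
  rw [h4] at h3
  exact h3

theorem inv0 : Ring.inverse (d.B 0) = 1 := by rw [d.hB0, Ring.inverse_one]

theorem X0 : d.X 0 = ContinuousLinearMap.fst ℝ E E := by
  rw [X, d.inv0, d.hk₁0]; rfl

theorem W0 : d.W 0 = ContinuousLinearMap.fst ℝ E E := by
  rw [W, d.X0, d.hC0, zero_smul, sub_zero]; rfl

theorem Z0 : d.Z 0 = ContinuousLinearMap.fst ℝ E E := by
  rw [Z, d.W0, d.inv0]; rfl

theorem hX : HasDerivAt d.X (ContinuousLinearMap.snd ℝ E E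
    - (1 / 2 : ℝ) • (d.D ∘L ContinuousLinearMap.fst ℝ E E)) 0 := by
  have h1 := d.deriv_inv.clm_comp d.hk₁
  refine h1.congr_deriv ?_
  rw [d.hk₁0, d.inv0]
  ext x
  · simp
  · simp

theorem hW : HasDerivAt d.W ((1 / 2 : ℝ) • (d.D ∘L ContinuousLinearMap.fst ℝ E E)) 0 := by
  have h1 := (d.hC.clm_comp d.hX).sub ((hasDerivAt_id (0 : ℝ)).smul d.hk₂.hasDerivAt)
  refine h1.congr_deriv ?_
  rw [d.X0, d.hC0, d.hk₂0]
  ext x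
  · simp
    module
  · simp

theorem hZ : HasDerivAt d.Z 0 0 := by
  have h1 := d.deriv_inv.clm_comp d.hW
  refine h1.congr_deriv ?_
  rw [d.W0, d.inv0]
  ext x
  · simp
  · simp

theorem ev_unit : ∀ᶠ t in 𝓝[>] (0 : ℝ), IsUnit (d.B t) := by
  have h1 : {T : E →L[ℝ] E | IsUnit T} ∈ 𝓝 (d.B 0) := by
    rw [d.hB0]; exact Units.isOpen.mem_nhds isUnit_one
  exact nhdsWithin_le_nhds (d.hB.continuousAt.preimage_mem_nhds h1)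

theorem ev_unit' : ∀ᶠ t in 𝓝[>] (0 : ℝ), IsUnit (d.B' t) := by
  have h1 : {T : E →L[ℝ] E | IsUnit T} ∈ 𝓝 (d.B' 0) := by
    rw [d.hB'0]; exact Units.isOpen.mem_nhds isUnit_one
  exact nhdsWithin_le_nhds (d.hB'.preimage_mem_nhds h1)

omit [FiniteDimensional ℝ E] in
theorem inv_left {T : E →L[ℝ] E} (hT : IsUnit T) (x : E) : Ring.inverse T (T x) = x := by
  have h1 := Ring.inverse_mul_cancel T hT
  exact congrArg (fun L : E →L[ℝ] E => L x) h1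

omit [FiniteDimensional ℝ E] in
theorem inv_right {T : E →L[ℝ] E} (hT : IsUnit T) (x : E) : T (Ring.inverse T x) = x := by
  have h1 := Ring.mul_inverse_cancel T hT
  exact congrArg (fun L : E →L[ℝ] E => L x) h1

theorem mem_of_unit {T : E →L[ℝ] E} (hT : IsUnit T) {U U' : Submodule ℝ E}
    (hU : ∀ x ∈ U, T x ∈ U') (hf : Module.finrank ℝ U' = Module.finrank ℝ U) {y : E}
    (hy : y ∈ U') : Ring.inverse T y ∈ U := by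
  have hinj : Function.Injective T := fun x x' hx => by
    rw [← inv_left hT x, ← inv_left hT x', hx]
  have h1 : U.map T.toLinearMap ≤ U' := by
    rintro _ ⟨x, hx, rfl⟩; exact hU x hx
  have h2 : Module.finrank ℝ (U.map T.toLinearMap) = Module.finrank ℝ U :=
    (Submodule.equivMapOfInjective T.toLinearMap hinj U).finrank_eq.symm
  have h3 : U.map T.toLinearMap = U' := Submodule.eq_of_le_of_finrank_eq h1 (by rw [h2, hf])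
  rw [← h3] at hy
  obtain ⟨x, hx, rfl⟩ := hy
  have h4 : Ring.inverse T (T x) = x := inv_left hT x
  show Ring.inverse T (T x) ∈ U
  rw [h4]; exact hx

theorem X_mem {t : ℝ} (ht : 0 < t) (hu : IsUnit (d.B t)) {k : E × E} (hk : k ∈ d.Y₀) :
    d.X t k ∈ d.V := mem_of_unit hu (d.BV t ht) (d.dim t) (d.YV' t ht k hk)

theorem B_X {t : ℝ} (hu : IsUnit (d.B t)) (k : E × E) : d.B t (d.X t k) = d.k₁ t k :=
  inv_right hu _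

theorem eq_X {t : ℝ} (hu : IsUnit (d.B t)) {k : E × E} {x : E} (hx : d.B t x = d.k₁ t k) :
    x = d.X t k := by
  rw [← inv_left hu x, hx]; rfl

theorem W_apply (t : ℝ) (k : E × E) : d.W t k = d.C t (d.X t k) - t • d.k₂ t k := rfl

theorem W_mem {t : ℝ} (ht : 0 < t) (hu : IsUnit (d.B t)) {k : E × E} (hk : k ∈ d.Y₀) :
    d.W t k ∈ d.V' t := d.CV t ht k hk _ (d.X_mem ht hu hk) (d.B_X hu k)

theorem Z_mem {t : ℝ} (ht : 0 < t) (hu : IsUnit (d.B t)) {k : E × E} (hk : k ∈ d.Y₀) :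
    d.Z t k ∈ d.V := mem_of_unit hu (d.BV t ht) (d.dim t) (d.W_mem ht hu hk)

theorem B_Z {t : ℝ} (hu : IsUnit (d.B t)) (k : E × E) : d.B t (d.Z t k) = d.W t k :=
  inv_right hu _

theorem TI_of {t : ℝ} (ht : 0 < t) (hu : IsUnit (d.B t)) {k k' : E × E} (hk : k ∈ d.Y₀)
    (hk' : k' ∈ d.Y₀) (h : ∀ q ∈ d.Y₀, ⟪d.X t k, d.X t q⟫_ℝ = ⟪d.W t k', d.W t q⟫_ℝ) :
    d.TI t (d.X t k) (d.W t k') := by
  refine ⟨d.X_mem ht hu hk, ⟨k, hk, d.B_X hu k⟩, ⟨d.X t k', d.X_mem ht hu hk', k', hk',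
    d.B_X hu k', rfl⟩, ?_⟩
  intro q hq x hx hxq
  have h1 := d.eq_X hu hxq
  subst h1
  exact h q hq

theorem TII_of {t : ℝ} (ht : 0 < t) (hu : IsUnit (d.B t)) {e e' : E} (he : e ∈ d.V)
    (he' : e' ∈ d.V' t) (h1 : ∀ k ∈ d.Y₀, ⟪e, k.1⟫_ℝ = 0) (h2 : ∀ k ∈ d.Y₀, ⟪e', d.k₁ t k⟫_ℝ = 0)
    {k y y' : E × E} (hk : k ∈ d.Y₀) (hy : y ∈ d.Y₀) (hy' : y' ∈ d.Y₀)
    (h3 : d.W t k = t • d.B t e + d.k₁ t y) (h4 : d.X t k = t • d.B' t e' + y'.1) :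
    d.TII t e e' :=
  ⟨he, he', h1, h2, k, hk, d.X t k, d.X_mem ht hu hk, d.B_X hu k, ⟨y, hy, h3⟩, y', hy', h4⟩

theorem slope {f : ℝ → (E × E) →L[ℝ] E} {f' : (E × E) →L[ℝ] E} (hf : HasDerivAt f f' 0)
    (k : E × E) : Tendsto (fun t : ℝ => t⁻¹ • (f t k - f 0 k)) (𝓝[>] 0) (𝓝 (f' k)) := by
  have h1 : HasDerivAt (fun t => f t k) (f' k) 0 := by
    have h2 := hf.clm_apply (hasDerivAt_const (0 : ℝ) k)
    simpa using h2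
  have h2 := h1.tendsto_slope_zero_right
  simpa using h2

theorem tends {f : ℝ → (E × E) →L[ℝ] E} (hf : ContinuousAt f 0) {k : ℝ → E × E} {k₀ : E × E}
    (hk : Tendsto k (𝓝[>] 0) (𝓝 k₀)) : Tendsto (fun t : ℝ => f t (k t)) (𝓝[>] 0)
      (𝓝 (f 0 k₀)) := by
  have h1 : Tendsto f (𝓝[>] 0) (𝓝 (f 0)) := hf.tendsto.mono_left nhdsWithin_le_nhds
  have h2 : Continuous fun x : ((E × E) →L[ℝ] E) × (E × E) => x.1 x.2 :=
    isBoundedBilinearMap_apply.continuous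
  have h3 : Tendsto (fun x : ((E × E) →L[ℝ] E) × (E × E) => x.1 x.2) (𝓝 (f 0, k₀))
    (𝓝 (f 0 k₀)) := h2.tendsto (f 0, k₀)
  have h4 : Tendsto (fun t => (f t, k t)) (𝓝[>] 0) (𝓝 (f 0, k₀)) := h1.prodMk_nhds hk
  exact Tendsto.comp h3 h4

omit [FiniteDimensional ℝ E] in
theorem tendsIn {v : ℝ → E} {v₀ : E} {T : ℝ → (E × E) →L[ℝ] E} {T₀ : (E × E) →L[ℝ] E}
    (hv : Tendsto v (𝓝[>] 0) (𝓝 v₀)) (hT : Tendsto T (𝓝[>] 0) (𝓝 T₀)) :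
    Tendsto (fun t => innerSL ℝ (v t) ∘L T t) (𝓝[>] 0) (𝓝 (innerSL ℝ v₀ ∘L T₀)) := by
  have h1 : Continuous fun x : E × ((E × E) →L[ℝ] E) => innerSL ℝ x.1 ∘L x.2 :=
    ((innerSL ℝ).continuous.comp continuous_fst).clm_comp continuous_snd
  have h2 : Tendsto (fun x : E × ((E × E) →L[ℝ] E) => innerSL ℝ x.1 ∘L x.2) (𝓝 (v₀, T₀))
    (𝓝 (innerSL ℝ v₀ ∘L T₀)) := h1.tendsto (v₀, T₀)
  have h3 : Tendsto (fun t => (v t, T t)) (𝓝[>] 0) (𝓝 (v₀, T₀)) := hv.prodMk_nhds hT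
  exact Tendsto.comp h2 h3

/-- Test pairs of the first kind. -/
theorem exists_I {k : E × E} (hk : k ∈ d.Y₀) : ∃ e e' : ℝ → E, Tendsto e (𝓝[>] 0) (𝓝 k.1) ∧
    Tendsto e' (𝓝[>] 0) (𝓝 k.1) ∧ (∀ᶠ t in 𝓝[>] (0 : ℝ), d.TI t (e t) (e' t)) ∧
    ∀ᶠ t in 𝓝[>] (0 : ℝ), ∀ q ∈ d.Y₀, ⟪e t, d.X t q⟫_ℝ = ⟪e' t, d.W t q⟫_ℝ := by
  have hX : ContinuousAt d.X 0 := HasDerivAt.continuousAt (F := (E × E) →L[ℝ] E) d.hX
  have hW : ContinuousAt d.W 0 := HasDerivAt.continuousAt (F := (E × E) →L[ℝ] E) d.hW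
  have hW' : Tendsto d.W (𝓝[>] 0) (𝓝 (ContinuousLinearMap.fst ℝ E E)) := by
    rw [← d.W0]; exact hW.tendsto.mono_left nhdsWithin_le_nhds
  have hXk : Tendsto (fun t => d.X t k) (𝓝[>] 0) (𝓝 k.1) := by
    have := tends hX (tendsto_const_nhds (x := k))
    rw [d.X0] at this; exact this
  have hX' : Tendsto d.X (𝓝[>] 0) (𝓝 (ContinuousLinearMap.fst ℝ E E)) := by
    rw [← d.X0]; exact hX.tendsto.mono_left nhdsWithin_le_nhds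
  have hf := tendsIn hXk hX'
  obtain ⟨c, c₀, h1, h2, h3, h4, h5⟩ := solve d.Yz hW' hW' hf
  have hc₀ : c₀.1 = k.1 := by
    have h6 : ∀ q ∈ d.Y₀, ⟪(c₀ - k).1, q.1⟫_ℝ = 0 := by
      intro q hq
      have h7 := h4 q hq
      have h8 : ⟪c₀.1, q.1⟫_ℝ = ⟪k.1, q.1⟫_ℝ := h7
      rw [Prod.fst_sub, inner_sub_left, h8, sub_self]
    have h7 := h6 _ (d.Y₀.sub_mem h2 hk)
    have h8 := inner_self_eq_zero.1 h7
    rw [Prod.fst_sub] at h8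
    exact sub_eq_zero.1 h8
  have key : ∀ᶠ t in 𝓝[>] (0 : ℝ), ∀ q ∈ d.Y₀, ⟪d.X t k, d.X t q⟫_ℝ = ⟪d.W t (c t), d.W t q⟫_ℝ := by
    filter_upwards [h5] with t ht q hq
    have h6 : ⟪d.W t (c t), d.W t q⟫_ℝ = ⟪d.X t k, d.X t q⟫_ℝ := ht q hq
    exact h6.symm
  refine ⟨fun t => d.X t k, fun t => d.W t (c t), hXk, ?_, ?_, key⟩
  · have := tends hW h3
    rw [d.W0] at this
    have h6 : (ContinuousLinearMap.fst ℝ E E) c₀ = k.1 := hc₀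
    rw [h6] at this
    exact this
  · filter_upwards [key, d.ev_unit, self_mem_nhdsWithin] with t h6 h7 h8
    exact d.TI_of h8 h7 hk (h1 t) h6

/-- Test pairs of the second kind. -/
theorem exists_II {k : E × E} (hk : k ∈ d.Y₀) : ∃ (e e' : ℝ → E) (g : E) (c₀ : E × E),
    c₀ ∈ d.Y₀ ∧ g = k.2 - (1 / 2 : ℝ) • d.D k.1 + c₀.1 ∧ g ∈ d.V ∧ (∀ q ∈ d.Y₀, ⟪g, q.1⟫_ℝ = 0) ∧
      Tendsto e (𝓝[>] 0) (𝓝 (-g)) ∧ Tendsto e' (𝓝[>] 0) (𝓝 g) ∧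
      ∀ᶠ t in 𝓝[>] (0 : ℝ), d.TII t (e t) (e' t) := by
  have hX : ContinuousAt d.X 0 := HasDerivAt.continuousAt (F := (E × E) →L[ℝ] E) d.hX
  have hX' : Tendsto d.X (𝓝[>] 0) (𝓝 (ContinuousLinearMap.fst ℝ E E)) := by
    rw [← d.X0]; exact hX.tendsto.mono_left nhdsWithin_le_nhds
  have hk1 : ContinuousAt d.k₁ 0 := HasDerivAt.continuousAt (F := (E × E) →L[ℝ] E) d.hk₁
  have hk1' : Tendsto d.k₁ (𝓝[>] 0) (𝓝 (ContinuousLinearMap.fst ℝ E E)) := by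
    rw [← d.hk₁0]; exact hk1.tendsto.mono_left nhdsWithin_le_nhds
  set γ : E := k.2 - (1 / 2 : ℝ) • d.D k.1 with hγ
  have s1 : Tendsto (fun t : ℝ => t⁻¹ • (d.X t k - k.1)) (𝓝[>] 0) (𝓝 γ) := by
    have := slope d.hX k
    rw [d.X0] at this; exact this
  have s2 : Tendsto (fun t : ℝ => t⁻¹ • (d.Z t k - d.X t k)) (𝓝[>] 0) (𝓝 (-γ)) := by
    have h1 := slope d.hZ k
    have h2 := slope d.hX k
    have h3 := h1.sub h2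
    refine (h3.congr fun t => ?_).trans (le_of_eq ?_)
    · rw [← smul_sub, d.Z0, d.X0]
      congr 1
      abel
    · congr 1
      show (0 : E) - γ = -γ
      rw [zero_sub]
  -- the inverse of `B' t`
  have hinv : Tendsto (fun t => Ring.inverse (d.B' t)) (𝓝[>] 0) (𝓝 1) := by
    have h1 : ContinuousAt Ring.inverse (d.B' 0) := by
      rw [d.hB'0]; exact NormedRing.inverse_continuousAt (1 : (E →L[ℝ] E)ˣ)
    have h2 : Tendsto Ring.inverse (𝓝 (d.B' 0)) (𝓝 (Ring.inverse (d.B' 0))) := h1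
    rw [d.hB'0, Ring.inverse_one] at h2
    have h3 : Tendsto d.B' (𝓝[>] 0) (𝓝 1) := by
      rw [← d.hB'0]; exact d.hB'.tendsto.mono_left nhdsWithin_le_nhds
    exact h2.comp h3
  have happ : ∀ {v : ℝ → E} {v₀ : E}, Tendsto v (𝓝[>] 0) (𝓝 v₀) →
      Tendsto (fun t => Ring.inverse (d.B' t) (v t)) (𝓝[>] 0) (𝓝 v₀) := by
    intro v v₀ hv
    have h2 : Continuous fun x : (E →L[ℝ] E) × E => x.1 x.2 := isBoundedBilinearMap_apply.continuous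
    have h3 : Tendsto (fun x : (E →L[ℝ] E) × E => x.1 x.2) (𝓝 (1, v₀)) (𝓝 v₀) :=
      h2.tendsto ((1 : E →L[ℝ] E), v₀)
    have h4 : Tendsto (fun t => (Ring.inverse (d.B' t), v t)) (𝓝[>] 0)
      (𝓝 ((1 : E →L[ℝ] E), v₀)) := hinv.prodMk_nhds hv
    exact Tendsto.comp h3 h4
  -- first solution
  have f1 := tendsIn s2 (tendsto_const_nhds (x := ContinuousLinearMap.fst ℝ E E))
  obtain ⟨c, c₀, a1, a2, a3, a4, a5⟩ := solve d.Yz hX' (tendsto_const_nhds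
    (x := ContinuousLinearMap.fst ℝ E E)) f1
  -- second solution
  have hP : Tendsto (fun t => Ring.inverse (d.B' t) ∘L ContinuousLinearMap.fst ℝ E E) (𝓝[>] 0)
      (𝓝 (ContinuousLinearMap.fst ℝ E E)) := by
    have h1 : Continuous fun T : E →L[ℝ] E => T ∘L ContinuousLinearMap.fst ℝ E E :=
      continuous_id.clm_comp continuous_const
    have h2 : Tendsto (fun T : E →L[ℝ] E => T ∘L ContinuousLinearMap.fst ℝ E E) (𝓝 1)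
      (𝓝 (ContinuousLinearMap.fst ℝ E E)) := h1.tendsto 1
    exact Tendsto.comp h2 hinv
  have f2 := tendsIn (happ s1).neg hk1'
  obtain ⟨c', c₀', b1, b2, b3, b4, b5⟩ := solve d.Yz hP hk1' f2
  have hcc : c₀'.1 = c₀.1 := by
    have h6 : ∀ q ∈ d.Y₀, ⟪(c₀' - c₀).1, q.1⟫_ℝ = 0 := by
      intro q hq
      have h7 : ⟪c₀.1, q.1⟫_ℝ = ⟪-γ, q.1⟫_ℝ := a4 q hq
      have h8 : ⟪c₀'.1, q.1⟫_ℝ = ⟪-γ, q.1⟫_ℝ := b4 q hq
      rw [Prod.fst_sub, inner_sub_left, h8, h7, sub_self]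
    have h8 := inner_self_eq_zero.1 (h6 _ (d.Y₀.sub_mem b2 a2))
    rw [Prod.fst_sub] at h8
    exact sub_eq_zero.1 h8
  set e : ℝ → E := fun t => t⁻¹ • (d.Z t k - d.X t k) - d.X t (c t) with he
  set e' : ℝ → E := fun t => Ring.inverse (d.B' t) (t⁻¹ • (d.X t k - k.1) + (c' t).1) with he'
  have heV : ∀ᶠ t in 𝓝[>] (0 : ℝ), e t ∈ d.V := by
    filter_upwards [d.ev_unit, self_mem_nhdsWithin] with t h7 h8
    exact d.V.sub_mem (d.V.smul_mem _ (d.V.sub_mem (d.Z_mem h8 h7 hk) (d.X_mem h8 h7 hk)))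
      (d.X_mem h8 h7 (a1 t))
  have hlim : Tendsto e (𝓝[>] 0) (𝓝 (-(γ + c₀.1))) := by
    have h1 := tends hX a3
    rw [d.X0] at h1
    have h2 := s2.sub h1
    rw [neg_add, ← sub_eq_add_neg]
    exact h2
  have hlim' : Tendsto e' (𝓝[>] 0) (𝓝 (γ + c₀.1)) := by
    have h1 : Tendsto (fun t => (c' t).1) (𝓝[>] 0) (𝓝 c₀.1) := by
      rw [← hcc]; exact (continuous_fst.tendsto c₀').comp b3
    exact happ (s1.add h1)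
  refine ⟨e, e', γ + c₀.1, c₀, a2, rfl, ?_, ?_, hlim, hlim', ?_⟩
  · have h1 : IsClosed (d.V : Set E) := d.V.closed_of_finiteDimensional
    have h2 := h1.mem_of_tendsto hlim heV
    have h3 := d.V.neg_mem h2
    rw [neg_neg] at h3
    exact h3
  · intro q hq
    have h7 : ⟪c₀.1, q.1⟫_ℝ = ⟪-γ, q.1⟫_ℝ := a4 q hq
    rw [inner_add_left, h7, inner_neg_left, add_neg_cancel]
  · filter_upwards [d.ev_unit, d.ev_unit', self_mem_nhdsWithin, heV, a5, b5]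
      with t h1 h2 h3 h4 h5 h6
    have ht : (0 : ℝ) < t := h3
    refine d.TII_of ht h1 h4 ?_ ?_ ?_ hk
      (y := k + t • c t) (y' := k - t • c' t) (d.Y₀.add_mem hk (d.Y₀.smul_mem _ (a1 t)))
      (d.Y₀.sub_mem hk (d.Y₀.smul_mem _ (b1 t))) ?_ ?_
    · refine mem_of_unit h2 (d.BV' t ht) (d.dim t).symm ?_
      exact d.V.add_mem (d.V.smul_mem _ (d.V.sub_mem (d.X_mem ht h1 hk) (d.YV k hk)))
        (d.YV _ (b1 t))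
    · intro q hq
      have h7 : ⟪d.X t (c t), q.1⟫_ℝ = ⟪t⁻¹ • (d.Z t k - d.X t k), q.1⟫_ℝ := h5 q hq
      show ⟪t⁻¹ • (d.Z t k - d.X t k) - d.X t (c t), q.1⟫_ℝ = 0
      rw [inner_sub_left, h7, sub_self]
    · intro q hq
      have h7 : ⟪Ring.inverse (d.B' t) (c' t).1, d.k₁ t q⟫_ℝ
        = ⟪-(Ring.inverse (d.B' t) (t⁻¹ • (d.X t k - k.1))), d.k₁ t q⟫_ℝ := h6 q hq
      show ⟪Ring.inverse (d.B' t) (t⁻¹ • (d.X t k - k.1) + (c' t).1), d.k₁ t q⟫_ℝ = 0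
      rw [map_add, inner_add_left, h7, inner_neg_left, add_neg_cancel]
    · show d.W t k = t • d.B t (t⁻¹ • (d.Z t k - d.X t k) - d.X t (c t)) + d.k₁ t (k + t • c t)
      rw [map_sub, map_smul, map_sub, d.B_Z h1, d.B_X h1, d.B_X h1, smul_sub, smul_smul,
        mul_inv_cancel₀ ht.ne', one_smul, map_add, map_smul]
      abel
    · show d.X t k = t • d.B' t (Ring.inverse (d.B' t) (t⁻¹ • (d.X t k - k.1) + (c' t).1))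
        + (k - t • c' t).1
      rw [inv_right h2, smul_add, smul_smul, mul_inv_cancel₀ ht.ne', one_smul, Prod.fst_sub,
        Prod.smul_fst]
      abel

/-- The identity at `t` in terms of `W`, `Z`, divided by `t`. -/
theorem St_apply {t : ℝ} (ht : 0 < t) (hu : IsUnit (d.B t)) {α : ℝ} (hα : ∀ e e',
    (d.TI t e e' ∨ d.TII t e e') → ∀ k ∈ d.Y₀, ∀ x ∈ d.V, d.B t x = d.k₁ t k →
    ∀ z ∈ d.V, d.B t z = d.C t x - t • d.k₂ t k →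
      ⟪z, e⟫_ℝ - ⟪d.C t z, e'⟫_ℝ = t * α * ⟪d.C t x - t • d.k₂ t k, e'⟫_ℝ) {e e' : E}
    (h : d.TI t e e' ∨ d.TII t e e') {k : E × E} (hk : k ∈ d.Y₀) :
    ⟪d.Z t k, e⟫_ℝ - ⟪d.C t (d.Z t k), e'⟫_ℝ = t * α * ⟪d.W t k, e'⟫_ℝ := by
  have h1 := hα e e' h k hk (d.X t k) (d.X_mem ht hu hk) (d.B_X hu k) (d.Z t k)
    (d.Z_mem ht hu hk) (by rw [d.B_Z hu, d.W_apply])
  rw [← d.W_apply] at h1
  exact h1

theorem main (hst : ∀ᶠ t in 𝓝[>] (0 : ℝ), d.St t) :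
    ∃ l : ℝ, ∀ k ∈ d.Y₀, ∀ u ∈ d.V, ⟪k.2, u⟫_ℝ = l * ⟪k.1, u⟫_ℝ := by
  by_cases hY : ∀ k ∈ d.Y₀, k = 0
  · refine ⟨0, fun k hk u _ => ?_⟩
    rw [hY k hk]; simp
  push Not at hY
  obtain ⟨κ, hκ, hκ0⟩ := hY
  have hκ1 : κ.1 ≠ 0 := fun h0 => hκ0 (d.Yz κ hκ h0)
  -- the function `α`
  choose! α hα using fun t (ht : d.St t) => ht
  have hX : ContinuousAt d.X 0 := HasDerivAt.continuousAt (F := (E × E) →L[ℝ] E) d.hX
  have hW : ContinuousAt d.W 0 := HasDerivAt.continuousAt (F := (E × E) →L[ℝ] E) d.hW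
  have hXk : ∀ k, Tendsto (fun t => d.X t k) (𝓝[>] 0) (𝓝 k.1) := fun k => by
    have := tends hX (tendsto_const_nhds (x := k))
    rw [d.X0] at this; exact this
  have hWk : ∀ k, Tendsto (fun t => d.W t k) (𝓝[>] 0) (𝓝 k.1) := fun k => by
    have := tends hW (tendsto_const_nhds (x := k))
    rw [d.W0] at this; exact this
  -- slopes
  have hCZ : HasDerivAt (fun t => d.C t ∘L d.Z t) (d.D ∘L ContinuousLinearMap.fst ℝ E E) 0 := by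
    have h1 := d.hC.clm_comp d.hZ
    refine h1.congr_deriv ?_
    rw [d.Z0, ContinuousLinearMap.comp_zero, add_zero]
  have s1 : ∀ k, Tendsto (fun t : ℝ => t⁻¹ • (d.X t k - k.1)) (𝓝[>] 0)
      (𝓝 (k.2 - (1 / 2 : ℝ) • d.D k.1)) := fun k => by
    have := slope d.hX k
    rw [d.X0] at this; exact this
  have s2 : ∀ k, Tendsto (fun t : ℝ => t⁻¹ • (d.Z t k - k.1)) (𝓝[>] 0) (𝓝 0) := fun k => by
    have := slope d.hZ k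
    rw [d.Z0] at this; exact this
  have s3 : ∀ k, Tendsto (fun t : ℝ => t⁻¹ • (d.C t (d.Z t k) - k.1)) (𝓝[>] 0)
      (𝓝 (d.D k.1)) := fun k => by
    have := slope hCZ k
    rw [d.Z0, d.hC0] at this; exact this
  have s4 : ∀ k, Tendsto (fun t : ℝ => t⁻¹ • (d.W t k - k.1)) (𝓝[>] 0)
      (𝓝 ((1 / 2 : ℝ) • d.D k.1)) := fun k => by
    have := slope d.hW k
    rw [d.W0] at this; exact this
  have s5 : ∀ k, Tendsto (fun t : ℝ => t⁻¹ • (d.k₁ t k - k.1)) (𝓝[>] 0) (𝓝 k.2) := fun k => by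
    have := slope d.hk₁ k
    rw [d.hk₁0] at this; exact this
  -- first kind
  have T1 : ∀ k ∈ d.Y₀, ∀ k' ∈ d.Y₀, ∃ e' : ℝ → E, Tendsto e' (𝓝[>] 0) (𝓝 k'.1) ∧
      Tendsto (fun t => α t * ⟪d.W t k, e' t⟫_ℝ) (𝓝[>] 0) (𝓝 (-⟪k.2, k'.1⟫_ℝ)) := by
    intro k hk k' hk'
    obtain ⟨e, e', h1, h2, h3, h4⟩ := d.exists_I hk'
    refine ⟨e', h2, ?_⟩
    have h5 : Tendsto (fun t => ⟪t⁻¹ • (d.Z t k - k.1) - t⁻¹ • (d.X t k - k.1), e t⟫_ℝ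
        - ⟪t⁻¹ • (d.C t (d.Z t k) - k.1) - t⁻¹ • (d.W t k - k.1), e' t⟫_ℝ) (𝓝[>] 0)
        (𝓝 (⟪0 - (k.2 - (1 / 2 : ℝ) • d.D k.1), k'.1⟫_ℝ
          - ⟪d.D k.1 - (1 / 2 : ℝ) • d.D k.1, k'.1⟫_ℝ)) :=
      (((s2 k).sub (s1 k)).inner h1).sub (((s3 k).sub (s4 k)).inner h2)
    have h6 : ⟪0 - (k.2 - (1 / 2 : ℝ) • d.D k.1), k'.1⟫_ℝ
          - ⟪d.D k.1 - (1 / 2 : ℝ) • d.D k.1, k'.1⟫_ℝ = -⟪k.2, k'.1⟫_ℝ := by
      simp only [inner_sub_left, inner_smul_left, inner_zero_left, RCLike.conj_to_real]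
      ring
    rw [h6] at h5
    refine h5.congr' ?_
    filter_upwards [hst, d.ev_unit, self_mem_nhdsWithin, h3, h4] with t g1 g2 g3 g4 g5
    have ht : (0 : ℝ) < t := g3
    have g6 := d.St_apply ht g2 (hα t g1) (Or.inl g4) hk
    have g7 := g5 k hk
    have g8 : ⟪t⁻¹ • (d.Z t k - k.1) - t⁻¹ • (d.X t k - k.1), e t⟫_ℝ
        - ⟪t⁻¹ • (d.C t (d.Z t k) - k.1) - t⁻¹ • (d.W t k - k.1), e' t⟫_ℝ
        = t⁻¹ * ((⟪d.Z t k, e t⟫_ℝ - ⟪d.C t (d.Z t k), e' t⟫_ℝ)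
          - (⟪e t, d.X t k⟫_ℝ - ⟪e' t, d.W t k⟫_ℝ)) := by
      rw [real_inner_comm (d.X t k) (e t), real_inner_comm (d.W t k) (e' t)]
      simp only [inner_sub_left, inner_smul_left, RCLike.conj_to_real]
      ring
    rw [g8, g6, g7, sub_self, sub_zero, mul_assoc, ← mul_assoc t⁻¹ t, inv_mul_cancel₀ ht.ne',
      one_mul]
  -- the limit of `α`
  obtain ⟨e₁, he₁, hlim₁⟩ := T1 κ hκ κ hκ
  have hn : ⟪κ.1, κ.1⟫_ℝ ≠ 0 := fun h0 => hκ1 (inner_self_eq_zero.1 h0)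
  set α₀ : ℝ := -⟪κ.2, κ.1⟫_ℝ / ⟪κ.1, κ.1⟫_ℝ with hα₀
  have hαlim : Tendsto α (𝓝[>] 0) (𝓝 α₀) := by
    have h1 : Tendsto (fun t => ⟪d.W t κ, e₁ t⟫_ℝ) (𝓝[>] 0) (𝓝 ⟪κ.1, κ.1⟫_ℝ) := (hWk κ).inner he₁
    have h2 := hlim₁.div h1 hn
    refine h2.congr' ?_
    filter_upwards [h1.eventually_ne hn] with t ht
    show α t * ⟪d.W t κ, e₁ t⟫_ℝ / ⟪d.W t κ, e₁ t⟫_ℝ = α t
    rw [mul_div_assoc, div_self ht, mul_one]
  have R1 : ∀ k ∈ d.Y₀, ∀ k' ∈ d.Y₀, ⟪k.2, k'.1⟫_ℝ = -α₀ * ⟪k.1, k'.1⟫_ℝ := by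
    intro k hk k' hk'
    obtain ⟨e', h1, h2⟩ := T1 k hk k' hk'
    have h3 := hαlim.mul ((hWk k).inner (𝕜 := ℝ) h1)
    have h4 := tendsto_nhds_unique h2 h3
    linarith
  -- second kind
  have R2 : ∀ k ∈ d.Y₀, ∃ c₀ ∈ d.Y₀, k.2 - (1 / 2 : ℝ) • d.D k.1 = c₀.1 := by
    intro k hk
    obtain ⟨e, e', g, c₀, h1, h2, h3, h4, h5, h6, h7⟩ := d.exists_II hk
    refine ⟨-c₀, d.Y₀.neg_mem h1, ?_⟩
    have h8 : Tendsto (fun t => ⟪t⁻¹ • (d.Z t k - k.1), e t⟫_ℝ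
        - ⟪t⁻¹ • (d.C t (d.Z t k) - k.1) - t⁻¹ • (d.k₁ t k - k.1), e' t⟫_ℝ) (𝓝[>] 0)
        (𝓝 (⟪(0 : E), -g⟫_ℝ - ⟪d.D k.1 - k.2, g⟫_ℝ)) :=
      ((s2 k).inner h5).sub (((s3 k).sub (s5 k)).inner h6)
    have h9 : Tendsto (fun t => α t * ⟪d.W t k, e' t⟫_ℝ) (𝓝[>] 0) (𝓝 (α₀ * ⟪k.1, g⟫_ℝ)) :=
      hαlim.mul ((hWk k).inner h6)
    have h10 : Tendsto (fun t => α t * ⟪d.W t k, e' t⟫_ℝ) (𝓝[>] 0)
        (𝓝 (⟪(0 : E), -g⟫_ℝ - ⟪d.D k.1 - k.2, g⟫_ℝ)) := by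
      refine h8.congr' ?_
      filter_upwards [hst, d.ev_unit, self_mem_nhdsWithin, h7] with t g1 g2 g3 g4
      have ht : (0 : ℝ) < t := g3
      have g6 := d.St_apply ht g2 (hα t g1) (Or.inr g4) hk
      have g7 : ⟪e t, k.1⟫_ℝ = 0 := g4.2.2.1 k hk
      have g8 : ⟪e' t, d.k₁ t k⟫_ℝ = 0 := g4.2.2.2.1 k hk
      have g9 : ⟪t⁻¹ • (d.Z t k - k.1), e t⟫_ℝ
        - ⟪t⁻¹ • (d.C t (d.Z t k) - k.1) - t⁻¹ • (d.k₁ t k - k.1), e' t⟫_ℝ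
        = t⁻¹ * ((⟪d.Z t k, e t⟫_ℝ - ⟪d.C t (d.Z t k), e' t⟫_ℝ)
          - ⟪e t, k.1⟫_ℝ + ⟪e' t, d.k₁ t k⟫_ℝ) := by
        rw [real_inner_comm k.1 (e t), real_inner_comm (d.k₁ t k) (e' t)]
        simp only [inner_sub_left, inner_smul_left, RCLike.conj_to_real]
        ring
      rw [g9, g6, g7, g8, sub_zero, add_zero, mul_assoc, ← mul_assoc t⁻¹ t,
        inv_mul_cancel₀ ht.ne', one_mul]
    have h11 := tendsto_nhds_unique h9 h10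
    have h12 : ⟪k.1, g⟫_ℝ = 0 := by rw [real_inner_comm]; exact h4 k hk
    have h13 : ⟪d.D k.1, g⟫_ℝ = 0 := d.hD k.1 (d.YV k hk) g h3
    rw [h12, mul_zero, inner_zero_left, zero_sub, inner_sub_left, h13, zero_sub, neg_neg] at h11
    have h14 : ⟪g, g⟫_ℝ = 0 := by
      have h15 : ⟪c₀.1, g⟫_ℝ = 0 := by rw [real_inner_comm]; exact h4 c₀ h1
      nth_rewrite 1 [h2]
      rw [inner_add_left, inner_sub_left, inner_smul_left, h13, h15, ← h11]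
      simp
    have h16 : g = 0 := inner_self_eq_zero.1 h14
    rw [h16] at h2
    show k.2 - (1 / 2 : ℝ) • d.D k.1 = -c₀.1
    exact eq_neg_of_add_eq_zero_left h2.symm
  refine ⟨-α₀, fun k hk u hu => ?_⟩
  obtain ⟨c₀, hc₀, hc⟩ := R2 k hk
  have h1 : ∀ q ∈ d.Y₀, ⟪(c₀ + α₀ • k).1, q.1⟫_ℝ = 0 := by
    intro q hq
    have h2 := R1 k hk q hq
    have h3 : ⟪d.D k.1, q.1⟫_ℝ = 0 := d.hD k.1 (d.YV k hk) q.1 (d.YV q hq)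
    rw [Prod.fst_add, Prod.smul_fst, inner_add_left, inner_smul_left, ← hc, inner_sub_left, h2,
      inner_smul_left, h3]
    simp
  have h2 := inner_self_eq_zero.1 (h1 _ (d.Y₀.add_mem hc₀ (d.Y₀.smul_mem _ hk)))
  rw [Prod.fst_add, Prod.smul_fst] at h2
  have h3 : ⟪d.D k.1, u⟫_ℝ = 0 := d.hD k.1 (d.YV k hk) u hu
  have h4 : k.2 = (1 / 2 : ℝ) • d.D k.1 + c₀.1 := by rw [← hc]; abel
  have h5 : c₀.1 = -(α₀ • k.1) := eq_neg_of_add_eq_zero_left h2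
  rw [h4, h5, inner_add_left, inner_smul_left, h3, inner_neg_left, inner_smul_left]
  simp

end Dat

end Pool.Agent.H21.IS
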