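import Mathlib

/-!
# Theorem 1 (section 4 of `db5e86_proof`), linear algebra and the limit `t → 0+`
-/

set_option autoImplicit false
set_option linter.unusedSectionVars false

open scoped InnerProductSpace Topology ContDiff
open Set Filter

namespace Pool.Agent.H21.IS

variable {E : Type*} [NormedAddCommGroup E] [InnerProductSpace ℝ E] [FiniteDimensional ℝ E]

/-- Solving a linear equation depending on a parameter near a bijective map. -/
theorem solve_aux {V W : Type*} [NormedAddCommGroup V] [NormedSpace ℝ V] [FiniteDimensional ℝ V]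
    [NormedAddCommGroup W] [NormedSpace ℝ W] [FiniteDimensional ℝ W] {l : Filter ℝ}
    {L : ℝ → V →L[ℝ] W} {L₀ : V →L[ℝ] W} (hL : Tendsto L l (𝓝 L₀))
    (hb : Function.Bijective L₀) {y : ℝ → W} {y₀ : W} (hy : Tendsto y l (𝓝 y₀)) :
    ∃ (c : ℝ → V) (c₀ : V), Tendsto c l (𝓝 c₀) ∧ L₀ c₀ = y₀ ∧ ∀ᶠ t in l, L t (c t) = y t := by
  let e : V ≃L[ℝ] W := (LinearEquiv.ofBijective L₀.toLinearMap hb).toContinuousLinearEquiv
  have he : (e : V →L[ℝ] W) = L₀ := by ext x; rfl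
  have h1 : ContinuousAt (ContinuousLinearMap.inverse : (V →L[ℝ] W) → (W →L[ℝ] V)) L₀ := by
    rw [← he]
    exact (contDiffAt_map_inverse (n := 0) e).continuousAt
  have h2 : Tendsto (fun t => (L t).inverse) l (𝓝 L₀.inverse) := h1.tendsto.comp hL
  have h3 : ∀ᶠ t in l, ∃ e' : V ≃L[ℝ] W, (e' : V →L[ℝ] W) = L t := by
    have h4 := ContinuousLinearEquiv.nhds e
    rw [he] at h4
    exact hL.eventually h4
  refine ⟨fun t => (L t).inverse (y t), L₀.inverse y₀, ?_, ?_, ?_⟩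
  · have h5 : Tendsto (fun t => ((L t).inverse, y t)) l (𝓝 (L₀.inverse, y₀)) := h2.prodMk_nhds hy
    exact (isBoundedBilinearMap_apply (𝕜 := ℝ) (E := W) (F := V)).continuous.continuousAt.tendsto.comp
      h5
  · rw [← he, ContinuousLinearMap.inverse_equiv]; simp
  · filter_upwards [h3] with t ht
    obtain ⟨e', he'⟩ := ht
    rw [← he', ContinuousLinearMap.inverse_equiv]; simp

section gen

variable {V : Type*} [NormedAddCommGroup V] [NormedSpace ℝ V] [FiniteDimensional ℝ V]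

/-- The matrix of the bilinear form `⟪P c, Q k⟫`. -/
noncomputable def Gr (P Q : V →L[ℝ] E) : V →L[ℝ] (Fin (Module.finrank ℝ V) → ℝ) :=
  ContinuousLinearMap.pi fun j => (innerSL ℝ (Q (Module.finBasis ℝ V j))) ∘L P

omit [FiniteDimensional ℝ E] in
theorem Gr_apply (P Q : V →L[ℝ] E) (c : V) (j : Fin (Module.finrank ℝ V)) :
    Gr P Q c j = ⟪Q (Module.finBasis ℝ V j), P c⟫_ℝ := rfl

omit [FiniteDimensional ℝ E] in
theorem continuous_Gr : Continuous fun x : (V →L[ℝ] E) × (V →L[ℝ] E) => Gr x.1 x.2 := by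
  refine continuous_clm_apply.2 fun c => continuous_pi fun j => ?_
  simp only [Gr_apply]
  fun_prop

omit [FiniteDimensional ℝ E] in
theorem Gr_span {P Q : V →L[ℝ] E} {c : V} {f : V →L[ℝ] ℝ}
    (h : ∀ j, Gr P Q c j = f (Module.finBasis ℝ V j)) (k : V) : ⟪P c, Q k⟫_ℝ = f k := by
  have h1 : (innerSL ℝ (P c) ∘L Q).toLinearMap = f.toLinearMap := by
    refine (Module.finBasis ℝ V).ext fun j => ?_
    have h2 := h j
    rw [Gr_apply, real_inner_comm] at h2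
    exact h2
  exact congrArg (fun g : V →ₗ[ℝ] ℝ => g k) h1

omit [FiniteDimensional ℝ E] in
theorem bijective_Gr {P : V →L[ℝ] E} (hP : ∀ v, P v = 0 → v = 0) :
    Function.Bijective (Gr P P) := by
  have hinj : Function.Injective (Gr P P) := by
    refine (injective_iff_map_eq_zero _).2 fun c hc => ?_
    have h3 : ⟪P c, P c⟫_ℝ = (0 : V →L[ℝ] ℝ) c :=
      Gr_span (f := 0) (fun j => by rw [hc]; rfl) c
    exact hP c (inner_self_eq_zero.1 h3)
  have hfr : Module.finrank ℝ V = Module.finrank ℝ (Fin (Module.finrank ℝ V) → ℝ) := by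
    rw [Module.finrank_fin_fun]
  have h3 : Function.Surjective (Gr P P).toLinearMap :=
    (LinearMap.injective_iff_surjective_of_finrank_eq_finrank hfr).1 hinj
  exact ⟨hinj, h3⟩

omit [FiniteDimensional ℝ E] in
/-- The bilinear form `⟪P t k, Q t k'⟫` is nondegenerate on `V` for small `t`. -/
theorem solve_gen {p : V →L[ℝ] E} (hp : ∀ v, p v = 0 → v = 0)
    {P Q : ℝ → V →L[ℝ] E} {l : Filter ℝ} (hP : Tendsto P l (𝓝 p)) (hQ : Tendsto Q l (𝓝 p))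
    {f : ℝ → V →L[ℝ] ℝ} {f₀ : V →L[ℝ] ℝ} (hf : Tendsto f l (𝓝 f₀)) :
    ∃ (c : ℝ → V) (c₀ : V), Tendsto c l (𝓝 c₀) ∧
      (∀ k, ⟪p c₀, p k⟫_ℝ = f₀ k) ∧ ∀ᶠ t in l, ∀ k, ⟪P t (c t), Q t k⟫_ℝ = f t k := by
  have h0 : Tendsto (fun x : (V →L[ℝ] E) × (V →L[ℝ] E) => Gr x.1 x.2) (𝓝 (p, p)) (𝓝 (Gr p p)) :=
    continuous_Gr.tendsto (p, p)
  have h00 : Tendsto (fun t => (P t, Q t)) l (𝓝 (p, p)) := hP.prodMk_nhds hQ
  have h1 := Tendsto.comp h0 h00
  have h2 : Tendsto (fun t j => f t (Module.finBasis ℝ V j)) l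
      (𝓝 fun j => f₀ (Module.finBasis ℝ V j)) := by
    refine tendsto_pi_nhds.2 fun j => ?_
    have h3 : Continuous fun g : V →L[ℝ] ℝ => g (Module.finBasis ℝ V j) := by fun_prop
    exact (h3.tendsto f₀).comp hf
  obtain ⟨c, c₀, h4, h5, h6⟩ := solve_aux h1 (bijective_Gr hp) h2
  refine ⟨c, c₀, h4, fun k => Gr_span (fun j => congrFun h5 j) k,
    h6.mono fun t ht k => Gr_span (fun j => congrFun ht j) k⟩

end gen

theorem solve {Y₀ : Submodule ℝ (E × E)} (hY : ∀ k ∈ Y₀, k.1 = 0 → k = 0)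
    {P Q : ℝ → (E × E) →L[ℝ] E} {l : Filter ℝ}
    (hP : Tendsto P l (𝓝 (ContinuousLinearMap.fst ℝ E E)))
    (hQ : Tendsto Q l (𝓝 (ContinuousLinearMap.fst ℝ E E)))
    {f : ℝ → (E × E) →L[ℝ] ℝ} {f₀ : (E × E) →L[ℝ] ℝ} (hf : Tendsto f l (𝓝 f₀)) :
    ∃ (c : ℝ → E × E) (c₀ : E × E), (∀ t, c t ∈ Y₀) ∧ c₀ ∈ Y₀ ∧ Tendsto c l (𝓝 c₀) ∧
      (∀ k ∈ Y₀, ⟪c₀.1, k.1⟫_ℝ = f₀ k) ∧ ∀ᶠ t in l, ∀ k ∈ Y₀, ⟪P t (c t), Q t k⟫_ℝ = f t k := by
  have hc1 : Continuous fun g : (E × E) →L[ℝ] E => g ∘L Y₀.subtypeL :=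
    continuous_id.clm_comp continuous_const
  have hc2 : Continuous fun g : (E × E) →L[ℝ] ℝ => g ∘L Y₀.subtypeL :=
    continuous_id.clm_comp continuous_const
  have hP' : Tendsto (fun t => P t ∘L Y₀.subtypeL) l
      (𝓝 (ContinuousLinearMap.fst ℝ E E ∘L Y₀.subtypeL)) := (hc1.tendsto _).comp hP
  have hQ' : Tendsto (fun t => Q t ∘L Y₀.subtypeL) l
      (𝓝 (ContinuousLinearMap.fst ℝ E E ∘L Y₀.subtypeL)) := (hc1.tendsto _).comp hQ
  have hf' : Tendsto (fun t => f t ∘L Y₀.subtypeL) l (𝓝 (f₀ ∘L Y₀.subtypeL)) :=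
    (hc2.tendsto _).comp hf
  obtain ⟨c, c₀, h1, h2, h3⟩ := solve_gen (V := Y₀)
    (fun v hv => Subtype.ext (hY v v.2 hv)) hP' hQ' hf'
  refine ⟨fun t => c t, c₀, fun t => (c t).2, c₀.2, ?_, fun k hk => h2 ⟨k, hk⟩,
    h3.mono fun t ht k hk => ht ⟨k, hk⟩⟩
  exact (continuous_subtype_val.tendsto c₀).comp h1

end Pool.Agent.H21.IS
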