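import Pool.Agent.H21.IS.Star
import Pool.Agent.H21.IS.Lim
import Pool.Agent.H59.Zar.Inst

/-!
# Theorem 1 (section 4 of `db5e86_proof`): the geometric data
-/

set_option autoImplicit false
set_option linter.unusedSectionVars false

open scoped InnerProductSpace Topology ContDiff
open Set Filter

namespace Pool.Agent.H21.IS

open Pool.Agent.H91.GE Pool.Agent.H59.Zar Pool.Agent.H59.ND

variable {E F : Type*} [NormedAddCommGroup E] [InnerProductSpace ℝ E] [FiniteDimensional ℝ E]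
  [NormedAddCommGroup F] [InnerProductSpace ℝ F] [FiniteDimensional ℝ F]
  {S : Set E} {A : E × E → E} {K K₂ : NNReal} {Φ : ℝ → E × E → E × E} {c n : ℕ}
  {R : Set ((E × E) × (E × E))}

/-- The vertical space at `w`. -/
noncomputable def VV (S : Set E) (w : E × E) : Submodule ℝ E :=
  ZT S w.1 ⊓ LinearMap.ker (innerSL ℝ w.2).toLinearMap

omit [FiniteDimensional ℝ E] in
theorem mem_VV {w : E × E} {x : E} : x ∈ VV S w ↔ x ∈ ZT S w.1 ∧ ⟪w.2, x⟫_ℝ = 0 := Iff.rfl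

theorem finrank_VV (hdim : Module.finrank ℝ E = Module.finrank ℝ F + n) (hsub : IsSub F S)
    {w : E × E} (hw : w ∈ UT S) : Module.finrank ℝ (VV S w) = n - 1 := by
  have h1 : w.2 ∈ ZT S w.1 := snd_mem_TS hsub hw
  have h2 := finrank_TS hdim hsub (fst_mem_TSet hw.1)
  let g : ZT S w.1 →L[ℝ] ℝ := innerSL ℝ w.2 ∘L (ZT S w.1).subtypeL
  have hg : Function.Surjective g := by
    intro r
    refine ⟨r • ⟨w.2, h1⟩, ?_⟩
    show ⟪w.2, r • w.2⟫_ℝ = r
    rw [real_inner_smul_right, real_inner_self_eq_norm_sq, hw.2]; ring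
  have h3 := finrank_ker hg
  have h4 : VV S w = (LinearMap.ker g.toLinearMap).map (ZT S w.1).subtype := by
    ext x
    rw [mem_VV]
    constructor
    · rintro ⟨hx, hx'⟩
      exact ⟨⟨x, hx⟩, hx', rfl⟩
    · rintro ⟨y, hy, rfl⟩
      exact ⟨y.2, hy⟩
  rw [h4, Submodule.finrank_map_subtype_eq]
  rw [Module.finrank_self, h2] at h3
  omega

theorem vert_iff (h : GFlow F S A K K₂ Φ) {w : E × E} (hw : w ∈ UT S) {x : E} :
    ((0 : E), x) ∈ ZT (UT S) w ↔ x ∈ VV S w := by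
  rw [ver_mem_iff h.sub hw, mem_VV]

/-! ### The derivative of the flow as a function of time -/

theorem smooth_jac (h : GFlow F S A K K₂ Φ) (w : E × E) :
    ContDiff ℝ ∞ (fun t : ℝ => fderiv ℝ (Φ t) w) :=
  ContDiff.fderiv (n := ∞) (m := ∞) (f := fun (t : ℝ) (w : E × E) => Φ t w) (g := fun _ => w)
    h.contDiff contDiff_const (by norm_num)

theorem jac_zero (h : GFlow F S A K K₂ Φ) (w : E × E) :
    fderiv ℝ (Φ 0) w = ContinuousLinearMap.id ℝ (E × E) := by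
  have e : Φ 0 = id := funext fun w => h.flow.zero w
  rw [e, fderiv_id]

theorem jac_deriv (h : GFlow F S A K K₂ Φ) (w : E × E) :
    HasDerivAt (fun t : ℝ => fderiv ℝ (Φ t) w)
      ((ContinuousLinearMap.snd ℝ E E).prod (fderiv ℝ A w)) 0 := by
  have h1 : HasDerivAt (fun t : ℝ => fderiv ℝ (Φ t) w) (deriv (fun t : ℝ => fderiv ℝ (Φ t) w) 0) 0 :=
    ((smooth_jac h w).differentiable (by simp) 0).hasDerivAt
  have h2 : deriv (fun t : ℝ => fderiv ℝ (Φ t) w) 0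
      = (ContinuousLinearMap.snd ℝ E E).prod (fderiv ℝ A w) := by
    refine ContinuousLinearMap.ext fun a => ?_
    have h3 := h1.clm_apply (hasDerivAt_const (0 : ℝ) a)
    have h4 := hasDerivAt_jac h w a 0
    have h5 := h3.unique h4
    rw [h.flow.zero, fderiv_flow_zero h w 0, fderiv_flow_zero h w a, add_zero] at h5
    exact h5
  rw [h2] at h1
  exact h1

/-- Division by `t`. -/
theorem div_deriv {X : Type*} [NormedAddCommGroup X] [NormedSpace ℝ X] {P C : ℝ → X} {D : X}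
    (hP0 : P 0 = 0) (hP : ∀ t, HasDerivAt P (C t) t) (hC : HasDerivAt C D 0) :
    HasDerivAt (fun t : ℝ => if t = 0 then C 0 else t⁻¹ • P t) ((1 / 2 : ℝ) • D) 0 := by
  rw [hasDerivAt_iff_isLittleO, Asymptotics.isLittleO_iff]
  intro ε hε
  have h1 := (hasDerivAt_iff_isLittleO.1 hC).def hε
  obtain ⟨δ, hδ, hb⟩ := Metric.eventually_nhds_iff.1 h1
  refine Metric.eventually_nhds_iff.2 ⟨δ, hδ, fun t ht => ?_⟩
  rw [Real.dist_eq, sub_zero] at ht
  rcases eq_or_ne t 0 with h0 | h0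
  · subst h0
    simp
  rw [if_neg h0, if_pos rfl, sub_zero]
  set f : ℝ → X := fun s => P s - s • C 0 - (s ^ 2 / 2) • D with hf
  have hfd : ∀ s, HasDerivAt f (C s - C 0 - s • D) s := by
    intro s
    have e1 : HasDerivAt (fun s : ℝ => s • C 0) ((1 : ℝ) • C 0) s := (hasDerivAt_id s).smul_const _
    have e2 : HasDerivAt (fun s : ℝ => s ^ 2 / 2) (((2 : ℕ) : ℝ) * s ^ (2 - 1) * 1 / 2) s :=
      ((hasDerivAt_id s).pow 2).div_const 2
    have e3 := ((hP s).sub e1).sub (e2.smul_const D)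
    refine e3.congr_deriv ?_
    rw [one_smul]
    congr 2
    norm_num
  have hfb : ∀ s ∈ uIcc (0 : ℝ) t, ‖C s - C 0 - s • D‖ ≤ ε * |t| := by
    intro s hs
    have h2 : |s| ≤ |t| := by
      rcases le_total 0 t with h3 | h3
      · rw [uIcc_of_le h3] at hs
        rw [abs_of_nonneg hs.1, abs_of_nonneg h3]; exact hs.2
      · rw [uIcc_of_ge h3] at hs
        rw [abs_of_nonpos hs.2, abs_of_nonpos h3]; linarith [hs.1]
    have h3 := hb (y := s) (by rw [Real.dist_eq, sub_zero]; exact lt_of_le_of_lt h2 ht)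
    rw [sub_zero] at h3
    refine h3.trans ?_
    rw [Real.norm_eq_abs]
    exact mul_le_mul_of_nonneg_left h2 hε.le
  have h4 := (convex_uIcc (0 : ℝ) t).norm_image_sub_le_of_norm_hasDerivWithin_le
    (f := f) (f' := fun s => C s - C 0 - s • D) (C := ε * |t|) (x := 0) (y := t)
    (fun s _ => (hfd s).hasDerivWithinAt) hfb left_mem_uIcc right_mem_uIcc
  have h5 : f 0 = 0 := by simp [hf, hP0]
  rw [h5, sub_zero, sub_zero, Real.norm_eq_abs] at h4
  have h6 : t⁻¹ • P t - C 0 - t • (1 / 2 : ℝ) • D = t⁻¹ • f t := by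
    show t⁻¹ • P t - C 0 - t • (1 / 2 : ℝ) • D = t⁻¹ • (P t - t • C 0 - (t ^ 2 / 2) • D)
    rw [smul_sub, smul_sub, smul_smul, smul_smul, smul_smul, inv_mul_cancel₀ h0, one_smul]
    congr 2
    field_simp
  rw [h6, norm_smul, Real.norm_eq_abs, abs_inv, Real.norm_eq_abs]
  calc |t|⁻¹ * ‖f t‖ ≤ |t|⁻¹ * (ε * |t| * |t|) :=
        mul_le_mul_of_nonneg_left h4 (inv_nonneg.2 (abs_nonneg _))
    _ = ε * |t| := by
      have : |t| ≠ 0 := abs_ne_zero.2 h0
      field_simp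

/-- The blocks of the derivative of the flow. -/
noncomputable def PP (Φ : ℝ → E × E → E × E) (w : E × E) (t : ℝ) : E →L[ℝ] E :=
  ContinuousLinearMap.fst ℝ E E ∘L (fderiv ℝ (Φ t) w ∘L ContinuousLinearMap.inr ℝ E E)

noncomputable def CC (Φ : ℝ → E × E → E × E) (w : E × E) (t : ℝ) : E →L[ℝ] E :=
  ContinuousLinearMap.snd ℝ E E ∘L (fderiv ℝ (Φ t) w ∘L ContinuousLinearMap.inr ℝ E E)

noncomputable def QQ (Φ : ℝ → E × E → E × E) (w : E × E) (t : ℝ) : E →L[ℝ] E :=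
  ContinuousLinearMap.fst ℝ E E ∘L (fderiv ℝ (Φ (-t)) (Φ t w) ∘L ContinuousLinearMap.inr ℝ E E)

noncomputable def BB (Φ : ℝ → E × E → E × E) (w : E × E) (t : ℝ) : E →L[ℝ] E :=
  if t = 0 then CC Φ w 0 else t⁻¹ • PP Φ w t

noncomputable def BB' (Φ : ℝ → E × E → E × E) (w : E × E) (t : ℝ) : E →L[ℝ] E :=
  if t = 0 then 1 else (-t⁻¹) • QQ Φ w t

omit [FiniteDimensional ℝ E] in
theorem PP_apply (w : E × E) (t : ℝ) (x : E) : PP Φ w t x = (fderiv ℝ (Φ t) w (0, x)).1 := rfl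

omit [FiniteDimensional ℝ E] in
theorem CC_apply (w : E × E) (t : ℝ) (x : E) : CC Φ w t x = (fderiv ℝ (Φ t) w (0, x)).2 := rfl

omit [FiniteDimensional ℝ E] in
theorem QQ_apply (w : E × E) (t : ℝ) (x : E) :
    QQ Φ w t x = (fderiv ℝ (Φ (-t)) (Φ t w) (0, x)).1 := rfl

omit [FiniteDimensional ℝ E] in
theorem smul_BB (w : E × E) {t : ℝ} (ht : 0 < t) (x : E) : t • BB Φ w t x = PP Φ w t x := by
  rw [BB, if_neg ht.ne']
  show t • t⁻¹ • PP Φ w t x = _
  rw [smul_smul, mul_inv_cancel₀ ht.ne', one_smul]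

omit [FiniteDimensional ℝ E] in
theorem BB_eq (w : E × E) {t : ℝ} (ht : 0 < t) (x : E) : BB Φ w t x = t⁻¹ • PP Φ w t x := by
  rw [BB, if_neg ht.ne']; rfl

omit [FiniteDimensional ℝ E] in
theorem BB'_eq (w : E × E) {t : ℝ} (ht : 0 < t) (x : E) :
    BB' Φ w t x = (-t⁻¹) • QQ Φ w t x := by
  rw [BB', if_neg ht.ne']; rfl

theorem CC_zero (h : GFlow F S A K K₂ Φ) (w : E × E) : CC Φ w 0 = 1 := by
  rw [CC, jac_zero h]; rfl

theorem PP_zero (h : GFlow F S A K K₂ Φ) (w : E × E) : PP Φ w 0 = 0 := by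
  rw [PP, jac_zero h]
  ext x
  rfl

theorem CC_deriv (h : GFlow F S A K K₂ Φ) (w : E × E) :
    HasDerivAt (CC Φ w) (fderiv ℝ A w ∘L ContinuousLinearMap.inr ℝ E E) 0 := by
  have h1 := (jac_deriv h w).clm_comp (hasDerivAt_const (0 : ℝ) (ContinuousLinearMap.inr ℝ E E))
  have h2 := (hasDerivAt_const (0 : ℝ) (ContinuousLinearMap.snd ℝ E E)).clm_comp h1
  refine h2.congr_deriv ?_
  ext x
  simp

theorem PP_deriv (h : GFlow F S A K K₂ Φ) (w : E × E) (t : ℝ) :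
    HasDerivAt (PP Φ w) (CC Φ w t) t := by
  have h0 : HasDerivAt (fun t : ℝ => fderiv ℝ (Φ t) w) (deriv (fun t : ℝ => fderiv ℝ (Φ t) w) t) t :=
    ((smooth_jac h w).differentiable (by simp) t).hasDerivAt
  have h1 := h0.clm_comp (hasDerivAt_const t (ContinuousLinearMap.inr ℝ E E))
  have h2 := (hasDerivAt_const t (ContinuousLinearMap.fst ℝ E E)).clm_comp h1
  refine h2.congr_deriv ?_
  ext x
  have h3 := h0.clm_apply (hasDerivAt_const t ((0 : E), x))
  have h4 := h3.unique (hasDerivAt_jac h w (0, x) t)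
  rw [map_zero, add_zero] at h4
  rw [CC_apply]
  simp [h4]

theorem BB_deriv (h : GFlow F S A K K₂ Φ) (w : E × E) : HasDerivAt (BB Φ w)
    ((1 / 2 : ℝ) • (fderiv ℝ A w ∘L ContinuousLinearMap.inr ℝ E E)) 0 :=
  div_deriv (PP_zero h w) (PP_deriv h w) (CC_deriv h w)

theorem QQ_zero (h : GFlow F S A K K₂ Φ) (w : E × E) : QQ Φ w 0 = 0 := by
  rw [QQ, neg_zero, jac_zero h]
  ext x
  rfl

theorem QQ_deriv (h : GFlow F S A K K₂ Φ) (w : E × E) : HasDerivAt (QQ Φ w) (-1) 0 := by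
  have hN : ContDiff ℝ ∞ (fun t : ℝ => fderiv ℝ (Φ (-t)) (Φ t w)) := by
    have h1 : ContDiff ℝ ∞ (fun x : ℝ × (E × E) => Φ (-x.1) x.2) :=
      h.contDiff.comp (contDiff_fst.neg.prodMk contDiff_snd)
    have h2 : ContDiff ℝ ∞ (fun t : ℝ => Φ t w) := h.contDiff.comp (contDiff_id.prodMk contDiff_const)
    exact ContDiff.fderiv (n := ∞) (m := ∞) (f := fun (t : ℝ) (w : E × E) => Φ (-t) w)
      (g := fun t => Φ t w) h1 h2 (by norm_num)
  set N := fun t : ℝ => fderiv ℝ (Φ (-t)) (Φ t w) with hNdef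
  have h0 : HasDerivAt N (deriv N 0) 0 := (hN.differentiable (by simp) 0).hasDerivAt
  have hM := jac_deriv h w
  have h1 := h0.clm_comp hM
  have h2 : (fun t : ℝ => N t ∘L fderiv ℝ (Φ t) w) = fun _ => ContinuousLinearMap.id ℝ (E × E) := by
    funext t
    exact ContinuousLinearMap.ext fun a => fderiv_flow_inv h t w a
  rw [h2] at h1
  have h3 := h1.unique (hasDerivAt_const (0 : ℝ) (ContinuousLinearMap.id ℝ (E × E)))
  have h4 : N 0 = ContinuousLinearMap.id ℝ (E × E) := by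
    show fderiv ℝ (Φ (-0)) (Φ 0 w) = _
    rw [neg_zero, jac_zero h]
  rw [h4, jac_zero h] at h3
  have h5 := h0.clm_comp (hasDerivAt_const (0 : ℝ) (ContinuousLinearMap.inr ℝ E E))
  have h6 := (hasDerivAt_const (0 : ℝ) (ContinuousLinearMap.fst ℝ E E)).clm_comp h5
  refine h6.congr_deriv ?_
  ext x
  have h7 := congrArg (fun L : (E × E) →L[ℝ] (E × E) => (L (0, x)).1) h3
  have h8 : (deriv N 0 (0, x)).1 + x = 0 := by simpa using h7
  have h9 : (deriv N 0 (0, x)).1 = -x := eq_neg_of_add_eq_zero_left h8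
  simp [h9]

theorem BB'_cont (h : GFlow F S A K K₂ Φ) (w : E × E) : ContinuousAt (BB' Φ w) 0 := by
  refine continuousAt_clm_apply.2 fun x => ?_
  have h1 : HasDerivAt (fun t => -(QQ Φ w t x)) x 0 := by
    have h2 := (QQ_deriv h w).clm_apply (hasDerivAt_const (0 : ℝ) x)
    have h3 := h2.neg
    refine h3.congr_deriv ?_
    simp
  have h2 := hasDerivAt_iff_tendsto_slope_zero.1 h1
  rw [continuousAt_iff_punctured_nhds]
  have h3 : BB' Φ w 0 x = x := by rw [BB', if_pos rfl]; rfl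
  rw [h3]
  refine h2.congr' ?_
  filter_upwards [self_mem_nhdsWithin] with t ht
  have ht' : t ≠ 0 := ht
  rw [BB', if_neg ht', zero_add, QQ_zero h]
  simp

/-- `Y₀`. -/
noncomputable def YZ (R : Set ((E × E) × (E × E))) (w : E × E) : Submodule ℝ (E × E) :=
  Y R w ⊓ LinearMap.ker (innerSL ℝ w.2 ∘L ContinuousLinearMap.fst ℝ E E).toLinearMap

omit [FiniteDimensional ℝ E] in
theorem mem_YZ {w k : E × E} : k ∈ YZ R w ↔ k ∈ Y R w ∧ ⟪w.2, k.1⟫_ℝ = 0 := Iff.rfl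

theorem fst_VV (h : GFlow F S A K K₂ Φ) {w a : E × E} (hw : w ∈ UT S) (ha : a ∈ ZT (UT S) w)
    (h0 : ⟪w.2, a.1⟫_ℝ = 0) (t : ℝ) : (fderiv ℝ (Φ t) w a).1 ∈ VV S (Φ t w) := by
  rw [mem_VV, theta_flow h hw ha t]
  exact ⟨fst_mem_TS (flow_mem_UT h hw t) (flow_ZTU_mem h ha t), h0⟩

theorem PP_mem (h : GFlow F S A K K₂ Φ) {w : E × E} (hw : w ∈ UT S) (t : ℝ) {x : E}
    (hx : x ∈ VV S w) : PP Φ w t x ∈ VV S (Φ t w) :=
  fst_VV h hw ((vert_iff h hw).2 hx) (inner_zero_right _) t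

theorem QQ_mem (h : GFlow F S A K K₂ Φ) {w : E × E} (hw : w ∈ UT S) (t : ℝ) {x : E}
    (hx : x ∈ VV S (Φ t w)) : QQ Φ w t x ∈ VV S w := by
  have hw' := flow_mem_UT h hw t
  have h1 := fst_VV h hw' ((vert_iff h hw').2 hx) (inner_zero_right _) (-t)
  rw [flow_inv h] at h1
  exact h1

/-- The data for the abstract limit. -/
noncomputable def dat (hdim : Module.finrank ℝ E = Module.finrank ℝ F + n)
    (h : GFlow F S A K K₂ Φ) (hR : RetRel Φ (UT S) c R) {w : E × E} (hw : w ∈ UT S)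
    (htr : ∀ k ∈ Y R w, k.1 = 0 → k = 0) : Dat E where
  V := VV S w
  V' := fun t => VV S (Φ t w)
  Y₀ := YZ R w
  B := BB Φ w
  C := CC Φ w
  B' := BB' Φ w
  k₁ := fun t => ContinuousLinearMap.fst ℝ E E ∘L fderiv ℝ (Φ t) w
  k₂ := fun t => ContinuousLinearMap.snd ℝ E E ∘L fderiv ℝ (Φ t) w
  D := fderiv ℝ A w ∘L ContinuousLinearMap.inr ℝ E E
  hB := BB_deriv h w
  hB0 := by rw [BB, if_pos rfl, CC_zero h]
  hC := CC_deriv h w
  hC0 := CC_zero h w
  hB' := BB'_cont h w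
  hB'0 := by rw [BB', if_pos rfl]
  hk₁ := by
    have h2 := (hasDerivAt_const (0 : ℝ) (ContinuousLinearMap.fst ℝ E E)).clm_comp (jac_deriv h w)
    refine h2.congr_deriv ?_
    ext x <;> simp
  hk₁0 := by rw [jac_zero h]; rfl
  hk₂ := ((hasDerivAt_const (0 : ℝ) (ContinuousLinearMap.snd ℝ E E)).clm_comp
    (jac_deriv h w)).differentiableAt
  hk₂0 := by rw [jac_zero h]; rfl
  dim := fun t => by rw [finrank_VV hdim h.sub hw, finrank_VV hdim h.sub (flow_mem_UT h hw t)]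
  BV := fun t ht x hx => by
    rw [BB_eq w ht]
    exact (VV S (Φ t w)).smul_mem _ (PP_mem h hw t hx)
  BV' := fun t ht x hx => by
    rw [BB'_eq w ht]
    exact (VV S w).smul_mem _ (QQ_mem h hw t hx)
  CV := fun t ht k hk x hx hxk => by
    rw [← vert_iff h (flow_mem_UT h hw t)]
    have h1 : ((0 : E), x) - t • k ∈ ZT (UT S) w :=
      (ZT (UT S) w).sub_mem ((vert_iff h hw).2 hx) ((ZT (UT S) w).smul_mem _ (hR.Y_le hw hk.1))
    have h2 := flow_ZTU_mem h h1 t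
    have h3 : fderiv ℝ (Φ t) w (((0 : E), x) - t • k) = ((0 : E), CC Φ w t x
        - t • (ContinuousLinearMap.snd ℝ E E ∘L fderiv ℝ (Φ t) w) k) := by
      rw [map_sub, map_smul]
      refine Prod.ext ?_ rfl
      show (fderiv ℝ (Φ t) w (0, x)).1 - t • (fderiv ℝ (Φ t) w k).1 = 0
      have h4 : BB Φ w t x = (fderiv ℝ (Φ t) w k).1 := hxk
      rw [← h4, smul_BB w ht, PP_apply, sub_self]
    rw [h3] at h2
    exact h2
  YV := fun k hk => ⟨fst_mem_TS hw (hR.Y_le hw hk.1), hk.2⟩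
  YV' := fun t _ k hk => fst_VV h hw (hR.Y_le hw hk.1) hk.2 t
  Yz := fun k hk => htr k hk.1
  hD := fun x hx u hu => inner_dA h hw hx.1 hu.1

end Pool.Agent.H21.IS
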