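import Pool.Agent.H21.IS.Geo

/-!
# Theorem 1 (section 4 of `db5e86_proof`)
-/

set_option autoImplicit false
set_option linter.unusedSectionVars false

open scoped InnerProductSpace Topology ContDiff
open Set Filter

namespace Pool.Agent.H21.IS

open Pool.Agent.H91.GE Pool.Agent.H59.Zar Pool.Agent.H59.ND

variable {E F : Type*} [NormedAddCommGroup E] [InnerProductSpace ℝ E] [FiniteDimensional ℝ E]
  [NormedAddCommGroup F] [InnerProductSpace ℝ F] [FiniteDimensional ℝ F]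
  {S : Set E} {A : E × E → E} {K K₂ : NNReal} {Φ : ℝ → E × E → E × E} {c n : ℕ}
  {R : Set ((E × E) × (E × E))}

theorem X_mem (h : GFlow F S A K K₂ Φ) (hR : RetRel Φ (UT S) c R) {w : E × E} (hw : w ∈ UT S) :
    (w.2, A w) ∈ Y R w := by
  refine hR.X_mem hw ?_
  have h1 := hasDerivAt_flow h w 0
  rwa [h.flow.zero] at h1

/-- The projection of `Y` onto `Y₀`. -/
theorem sub_X_mem (h : GFlow F S A K K₂ Φ) (hR : RetRel Φ (UT S) c R) {w k : E × E}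
    (hw : w ∈ UT S) (hk : k ∈ Y R w) : k - ⟪w.2, k.1⟫_ℝ • (w.2, A w) ∈ YZ R w := by
  refine ⟨(Y R w).sub_mem hk ((Y R w).smul_mem _ (X_mem h hR hw)), ?_⟩
  show ⟪w.2, k.1 - ⟪w.2, k.1⟫_ℝ • w.2⟫_ℝ = 0
  rw [inner_sub_right, real_inner_smul_right, real_inner_self_eq_norm_sq, hw.2]
  ring

theorem TZ_of (h : GFlow F S A K K₂ Φ) (hR : RetRel Φ (UT S) c R) {w : E × E} (hw : w ∈ UT S)
    {t : ℝ} (ht : 0 < t) {k : E × E} {x : E} (hk : k ∈ YZ R w) (hx : x ∈ VV S w)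
    (hxk : BB Φ w t x = (fderiv ℝ (Φ t) w k).1) :
    TZ R (w, Φ t w) x (CC Φ w t x - t • (fderiv ℝ (Φ t) w k).2) := by
  have h3 : fderiv ℝ (Φ t) w (((0 : E), x) - t • k) = ((0 : E), CC Φ w t x
      - t • (fderiv ℝ (Φ t) w k).2) := by
    rw [map_sub, map_smul]
    refine Prod.ext ?_ rfl
    show (fderiv ℝ (Φ t) w (0, x)).1 - t • (fderiv ℝ (Φ t) w k).1 = 0
    rw [← hxk, smul_BB w ht, PP_apply, sub_self]
  show (((0, x), (0, CC Φ w t x - t • (fderiv ℝ (Φ t) w k).2)) : (E × E) × (E × E)) ∈ _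
  rw [← h3, hR.mem_graph hw]
  refine ⟨(vert_iff h hw).2 hx, ?_⟩
  rw [sub_sub_cancel]
  exact (Y R w).smul_mem _ hk.1

theorem of_TZ (h : GFlow F S A K K₂ Φ) (hR : RetRel Φ (UT S) c R) {w : E × E} (hw : w ∈ UT S)
    {t : ℝ} (ht : 0 < t) {x y : E} (hz : TZ R (w, Φ t w) x y) :
    ∃ k ∈ YZ R w, x ∈ VV S w ∧ BB Φ w t x = (fderiv ℝ (Φ t) w k).1 ∧
      y = CC Φ w t x - t • (fderiv ℝ (Φ t) w k).2 := by
  set b : E × E := fderiv ℝ (Φ (-t)) (Φ t w) ((0 : E), y) with hb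
  have hbe : fderiv ℝ (Φ t) w b = ((0 : E), y) := hR.fderiv_inv' t w _
  have hz' : ((((0 : E), x) : E × E), ((0 : E), y)) ∈ ZT R (w, Φ t w) := hz
  rw [← hbe, hR.mem_graph hw] at hz'
  have hx := (vert_iff h hw).1 hz'.1
  set q : E × E := ((0 : E), x) - b with hq
  have hMq : fderiv ℝ (Φ t) w q = fderiv ℝ (Φ t) w ((0 : E), x) - ((0 : E), y) := by
    rw [hq, map_sub, hbe]
  have hq1 : (fderiv ℝ (Φ t) w q).1 = PP Φ w t x := by
    rw [hMq]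
    show (fderiv ℝ (Φ t) w ((0 : E), x)).1 - 0 = _
    rw [sub_zero]; rfl
  have hq2 : (fderiv ℝ (Φ t) w q).2 = CC Φ w t x - y := by
    rw [hMq]; rfl
  have hqY : q ∈ Y R w := hz'.2
  refine ⟨t⁻¹ • q, (YZ R w).smul_mem _ ⟨hqY, ?_⟩, hx, ?_, ?_⟩
  · show ⟪w.2, q.1⟫_ℝ = 0
    rw [← theta_flow h hw (hR.Y_le hw hqY) t, hq1]
    exact (PP_mem h hw t hx).2
  · rw [map_smul, Prod.smul_fst, hq1, BB_eq w ht]
  · rw [map_smul, Prod.smul_snd, hq2, smul_smul, mul_inv_cancel₀ ht.ne', one_smul]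
    abel

theorem pairI (h : GFlow F S A K K₂ Φ) (hR : RetRel Φ (UT S) c R)
    (hdim : Module.finrank ℝ E = Module.finrank ℝ F + n) {w : E × E} (hw : w ∈ UT S)
    (htr : ∀ k ∈ Y R w, k.1 = 0 → k = 0) {t : ℝ} (ht : 0 < t) {e e' : E}
    (hT : (dat hdim h hR hw htr).TI t e e') : PairI R (w, Φ t w) e e' := by
  obtain ⟨h1, ⟨k, hk, h2⟩, ⟨x, hx, k', hk', h3, h4⟩, h5⟩ := hT
  refine ⟨⟨_, TZ_of h hR hw ht hk h1 h2⟩, ⟨x, ?_⟩, fun x y hxy => ?_⟩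
  · rw [h4]; exact TZ_of h hR hw ht hk' hx h3
  · obtain ⟨q, hq, hxV, h6, h7⟩ := of_TZ h hR hw ht hxy
    rw [h7]
    exact h5 q hq x hxV h6

theorem pairII (h : GFlow F S A K K₂ Φ) (hR : RetRel Φ (UT S) c R)
    (hdim : Module.finrank ℝ E = Module.finrank ℝ F + n) {w : E × E} (hw : w ∈ UT S)
    (htr : ∀ k ∈ Y R w, k.1 = 0 → k = 0) {t : ℝ} (ht : 0 < t) {e e' : E}
    (hT : (dat hdim h hR hw htr).TII t e e') : PairII R (w, Φ t w) e e' := by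
  obtain ⟨h1, h2, h3, h4, k, hk, x, hx, h5, ⟨y, hy, h6⟩, ⟨y', hy', h7⟩⟩ := hT
  have h1' : e ∈ VV S w := h1
  have h2' : e' ∈ VV S (Φ t w) := h2
  refine ⟨fun q hq => ?_, fun q hq => ?_, x, _, TZ_of h hR hw ht hk hx h5, ?_, ?_⟩
  · have h8 := h3 _ (sub_X_mem h hR hw hq)
    have h9 : ⟪e, q.1 - ⟪w.2, q.1⟫_ℝ • w.2⟫_ℝ = 0 := h8
    have h10 : ⟪e, w.2⟫_ℝ = 0 := by rw [real_inner_comm]; exact h1'.2
    rw [inner_sub_right, real_inner_smul_right, h10, mul_zero, sub_zero] at h9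
    exact h9
  · set q' : E × E := fderiv ℝ (Φ (-t)) (Φ t w) q with hq'
    have hqe : fderiv ℝ (Φ t) w q' = q := hR.fderiv_inv' t w _
    have hqY : q' ∈ Y R w := by
      have h8 : fderiv ℝ (Φ t) w q' ∈ Y R (Φ t w) := by rw [hqe]; exact hq
      exact (hR.flow_Y hw t).1 h8
    have h8 := h4 _ (sub_X_mem h hR hw hqY)
    have h9 : ⟪e', (fderiv ℝ (Φ t) w (q' - ⟪w.2, q'.1⟫_ℝ • (w.2, A w))).1⟫_ℝ = 0 := h8
    rw [map_sub, map_smul, hqe, flow_X h w t] at h9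
    have h10 : ⟪e', q.1 - ⟪w.2, q'.1⟫_ℝ • (Φ t w).2⟫_ℝ = 0 := h9
    have h11 : ⟪e', (Φ t w).2⟫_ℝ = 0 := by rw [real_inner_comm]; exact h2'.2
    rw [inner_sub_right, real_inner_smul_right, h11, mul_zero, sub_zero] at h10
    exact h10
  · refine ⟨(fderiv ℝ (Φ t) w ((0, e) + y)).2, ?_⟩
    have h8 : CC Φ w t x - t • (fderiv ℝ (Φ t) w k).2 = t • BB Φ w t e + (fderiv ℝ (Φ t) w y).1 :=
      h6
    have h9 : (((CC Φ w t x - t • (fderiv ℝ (Φ t) w k).2),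
        (fderiv ℝ (Φ t) w ((0, e) + y)).2) : E × E) = fderiv ℝ (Φ t) w ((0, e) + y) := by
      refine Prod.ext ?_ rfl
      show CC Φ w t x - t • (fderiv ℝ (Φ t) w k).2 = (fderiv ℝ (Φ t) w ((0, e) + y)).1
      rw [h8, smul_BB w ht, map_add]
      rfl
    rw [h9, hR.mem_graph hw]
    refine ⟨(vert_iff h hw).2 h1', ?_⟩
    have h10 : ((0 : E), e) - (((0 : E), e) + y) = -y := by abel
    rw [h10]
    exact (Y R w).neg_mem hy.1
  · set b : E × E := fderiv ℝ (Φ (-t)) (Φ t w) ((0 : E), -e') with hb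
    have hbe : fderiv ℝ (Φ t) w b = ((0 : E), -e') := hR.fderiv_inv' t w _
    have hb1 : b.1 = -(QQ Φ w t e') := by
      show (fderiv ℝ (Φ (-t)) (Φ t w) ((0 : E), -e')).1 = -(QQ Φ w t e')
      rw [← map_neg, QQ_apply]
    have hx' : x = (b + y').1 := by
      have h8 : x = t • BB' Φ w t e' + y'.1 := h7
      rw [h8, BB'_eq w ht, smul_smul, mul_neg, mul_inv_cancel₀ ht.ne', neg_one_smul, ← hb1]
      rfl
    refine ⟨(b + y').2, ?_⟩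
    have h9 : ((x, (b + y').2) : E × E) = b + y' := Prod.ext hx' rfl
    rw [h9, ← hbe, hR.mem_graph hw]
    have hbU : b ∈ ZT (UT S) w := by
      rw [← flow_ZTU h hw t, hbe, vert_iff h (flow_mem_UT h hw t)]
      exact (VV S (Φ t w)).neg_mem h2'
    refine ⟨(ZT (UT S) w).add_mem hbU (hR.Y_le hw hy'.1), ?_⟩
    rw [add_sub_cancel_left]
    exact hy'.1

theorem St_of_Star (h : GFlow F S A K K₂ Φ) (hR : RetRel Φ (UT S) c R)
    (hdim : Module.finrank ℝ E = Module.finrank ℝ F + n) {w : E × E} (hw : w ∈ UT S)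
    (htr : ∀ k ∈ Y R w, k.1 = 0 → k = 0) {t : ℝ} (ht : 0 < t) (hs : Star R (w, Φ t w)) :
    (dat hdim h hR hw htr).St t := by
  obtain ⟨α, hα⟩ := hs
  refine ⟨α, fun e e' he k hk x hx hxk z hz hzx => ?_⟩
  have he' : PairI R (w, Φ t w) e e' ∨ PairII R (w, Φ t w) e e' := by
    rcases he with h1 | h1
    · exact Or.inl (pairI h hR hdim hw htr ht h1)
    · exact Or.inr (pairII h hR hdim hw htr ht h1)
  have hz' : z ∈ VV S w := hz
  have h1 : BB Φ w t z = CC Φ w t x - t • (fderiv ℝ (Φ t) w k).2 := hzx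
  have h2 := hα e e' he' (t⁻¹ • z) (CC Φ w t x - t • (fderiv ℝ (Φ t) w k).2)
    (CC Φ w t (t⁻¹ • z)) ?_ ⟨x, TZ_of h hR hw ht hk hx hxk⟩
  · show ⟪z, e⟫_ℝ - ⟪CC Φ w t z, e'⟫_ℝ
      = t * α * ⟪CC Φ w t x - t • (fderiv ℝ (Φ t) w k).2, e'⟫_ℝ
    rw [mul_assoc, ← h2, map_smul, real_inner_smul_left, real_inner_smul_left, mul_sub,
      ← mul_assoc, ← mul_assoc, mul_inv_cancel₀ ht.ne', one_mul, one_mul]
  · have h3 : (((CC Φ w t x - t • (fderiv ℝ (Φ t) w k).2), CC Φ w t (t⁻¹ • z)) : E × E)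
        = fderiv ℝ (Φ t) w ((0 : E), t⁻¹ • z) := by
      refine Prod.ext ?_ rfl
      show CC Φ w t x - t • (fderiv ℝ (Φ t) w k).2 = PP Φ w t (t⁻¹ • z)
      rw [← h1, map_smul, BB_eq w ht]
    rw [h3, hR.mem_graph hw]
    refine ⟨(vert_iff h hw).2 ((VV S w).smul_mem _ hz'), ?_⟩
    rw [sub_self]
    exact (Y R w).zero_mem

/-- Theorem 1: at transverse points `Γ_w = λ(w)` on `τ(w)` (in particular the normal part vanishes). -/
theorem isotropic (h : GFlow F S A K K₂ Φ) (hR : RetRel Φ (UT S) c R)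
    (hdim : Module.finrank ℝ E = Module.finrank ℝ F + n) {w : E × E} (hw : w ∈ UT S)
    (htr : ∀ k ∈ Y R w, k.1 = 0 → k = 0)
    (hstar : ∀ᶠ t in 𝓝[>] (0 : ℝ), Star R (w, Φ t w)) :
    ∃ l : ℝ, ∀ k ∈ Y R w, ⟪k.1, w.2⟫_ℝ = 0 → ∀ u ∈ ZT S w.1, ⟪k.2, u⟫_ℝ = l * ⟪k.1, u⟫_ℝ := by
  obtain ⟨l, hl⟩ := (dat hdim h hR hw htr).main (by
    filter_upwards [hstar, self_mem_nhdsWithin] with t h1 h2
    exact St_of_Star h hR hdim hw htr h2 h1)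
  refine ⟨l, fun k hk h0 u hu => ?_⟩
  have h0' : ⟪w.2, k.1⟫_ℝ = 0 := by rw [real_inner_comm]; exact h0
  have hkZ : k ∈ YZ R w := ⟨hk, h0'⟩
  have hw2 : w.2 ∈ ZT S w.1 := snd_mem_TS h.sub hw
  set u' : E := u - ⟪w.2, u⟫_ℝ • w.2 with hu'
  have hu'V : u' ∈ VV S w := by
    refine ⟨(ZT S w.1).sub_mem hu ((ZT S w.1).smul_mem _ hw2), ?_⟩
    show ⟪w.2, u - ⟪w.2, u⟫_ℝ • w.2⟫_ℝ = 0
    rw [inner_sub_right, real_inner_smul_right, real_inner_self_eq_norm_sq, hw.2]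
    ring
  have h1 : ⟪k.2, u'⟫_ℝ = l * ⟪k.1, u'⟫_ℝ := hl k hkZ u' hu'V
  have h2 : ⟪k.2, w.2⟫_ℝ = 0 := by
    rw [real_inner_comm]; exact inner_snd (hR.Y_le hw hk)
  rw [hu', inner_sub_right, inner_sub_right, real_inner_smul_right, real_inner_smul_right, h2, h0,
    mul_zero, sub_zero, sub_zero] at h1
  exact h1

end Pool.Agent.H21.IS
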