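import Pool.Agent.H59.Zar.Rel
import Pool.Agent.H59.ND.Resid

/-!
# The first order identity (*) (end of section 3 of `db5e86_proof`), statement

`TZ R p x y`: the vertical vector `((0, x), (0, y))` is in `ZT R p` (`x = ξ''`, `y = ξ'`).
`PairI`, `PairII`: the class independent test pairs of Lemma B. `Star`: the identity (*) at `p`.
-/

set_option autoImplicit false
set_option linter.unusedSectionVars false

open scoped InnerProductSpace Topology ContDiff
open Set Filter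

namespace Pool.Agent.H21.IS

open Pool.Agent.H91.GE Pool.Agent.H59.Zar Pool.Agent.H59.ND

variable {E F : Type*} [NormedAddCommGroup E] [InnerProductSpace ℝ E] [FiniteDimensional ℝ E]
  [NormedAddCommGroup F] [InnerProductSpace ℝ F] [FiniteDimensional ℝ F]

/-- `(x, y) = (ξ'', ξ')` is in `TZ_p`. -/
def TZ (R : Set ((E × E) × (E × E))) (p : (E × E) × (E × E)) (x y : E) : Prop :=
  (((0, x), (0, y)) : (E × E) × (E × E)) ∈ ZT R p

/-- Test pairs of the first kind, `e = e''`, `e' = e'`. -/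
def PairI (R : Set ((E × E) × (E × E))) (p : (E × E) × (E × E)) (e e' : E) : Prop :=
  (∃ y, TZ R p e y) ∧ (∃ x, TZ R p x e') ∧ ∀ x y, TZ R p x y → ⟪e, x⟫_ℝ = ⟪e', y⟫_ℝ

/-- Test pairs of the second kind, `e = g''`, `e' = g'`. -/
def PairII (R : Set ((E × E) × (E × E))) (p : (E × E) × (E × E)) (e e' : E) : Prop :=
  (∀ k ∈ Y R p.1, ⟪e, k.1⟫_ℝ = 0) ∧ (∀ k ∈ Y R p.2, ⟪e', k.1⟫_ℝ = 0) ∧
    ∃ x y, TZ R p x y ∧ (∃ b, (((0, e), (y, b)) : (E × E) × (E × E)) ∈ ZT R p) ∧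
      ∃ a, (((x, a), (0, -e')) : (E × E) × (E × E)) ∈ ZT R p

/-- The identity (*) at `p`. -/
def Star (R : Set ((E × E) × (E × E))) (p : (E × E) × (E × E)) : Prop :=
  ∃ α : ℝ, ∀ e e', (PairI R p e e' ∨ PairII R p e e') →
    ∀ a y b, (((0, a), (y, b)) : (E × E) × (E × E)) ∈ ZT R p → (∃ x, TZ R p x y) →
      ⟪a, e⟫_ℝ - ⟪b, e'⟫_ℝ = α * ⟪y, e'⟫_ℝ

end Pool.Agent.H21.IS
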